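import Pool.Agent.Q120.ME.Stm

/-!
# Project LW: the JOINT limit laws of the numbers of prime tuples, for ALL random sets near Cramér's model

`H_1, …, H_r` are distinct sets of `k` integers with the smallest element `0` (e.g. `{0, 2}`, `{0, 4}`, `{0, 6}`: twin, cousin, sexy primes),
`tup H S x = #{n < x : n + H ⊆ S}`, `gk k x = x / log ^ k x`. Class `δ`: `D(x) ≤ (δ + o(1)) x / log ^ k x`, `D(x)` the relative entropy (nats) of the law
of `A ∩ [3, x)` with respect to Cramér's model (`cp n = 1 / log n`). Results of the project, assembled from the jobs: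
(1) a probability measure `ν` on `ℝ ^ r` is the law of `lim (tup (H_i) A x / gk k x)_i` for some random set `A` of class `δ` for which the limits exist
almost surely iff `ν` lives on `[0, ∞) ^ r` and `∫ ∑ i, (u_i log u_i - u_i + 1) dν(u) ≤ δ`;
(2) the largest probability that only finitely many `n` have `n + H ⊆ A`, for the random sets `A` of class `δ`, is `min 1 δ`.

Each job is a definition `J_… : Prop`; a theorem `t_… : J_…` (with the named jobs as hypotheses) is to be proved. The proofs are complete in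
the docstrings. Tools: project ME (`Q26.ME.t_DV`, `Q184.ME.t_EVT`, `Q222.ME.UPL`, `Q24.ME.FIN`, `Q285.ME.Constr`, `Q224.ME.ENM`, `Q96.ME.SLL` as patterns),
`ET.Law`, `GM.Basic` (`harris`). All densities `cp n`, `n ≥ 3`, are in `(0, 1)`.
-/

set_option autoImplicit false

namespace Pool.Agent.Q120.LW

open Finset MeasureTheory Filter Pool.Agent.Q120.ET Pool.Agent.Q120.ME
open scoped Topology

/-- Cramér's probabilities. -/
noncomputable def cp (n : ℕ) : ℝ := 1 / Real.log n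

open Classical in
/-- The number of the `n < x` with `n + H ⊆ S`. -/
noncomputable def tup (H : Finset ℕ) (S : Set ℕ) (x : ℕ) : ℕ := ((range x).filter (fun n => ∀ h ∈ H, n + h ∈ S)).card

/-- The number of the `n < x` with `n + H ⊆ T`, for a finite set. -/
def ntup (H : Finset ℕ) (T : Finset ℕ) (x : ℕ) : ℕ := ((range x).filter (fun n => ∀ h ∈ H, n + h ∈ T)).card

/-- The normalisation. -/
noncomputable def gk (k : ℕ) (x : ℕ) : ℝ := x / Real.log x ^ k

/-- Distinct sets of `k` integers with the smallest element `0`. -/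
structure Shapes (r k : ℕ) (H : Fin r → Finset ℕ) : Prop where
  card : ∀ i, (H i).card = k
  zero : ∀ i, 0 ∈ H i
  inj : Function.Injective H

/-- The class `δ`: `D(x) ≤ (δ + o(1)) x / log ^ k x`. -/
def LCls (k : ℕ) (δ : ℝ) {Ω : Type*} [MeasurableSpace Ω] (μ : Measure Ω) (A : Ω → Set ℕ) : Prop :=
  IsRandomSet A ∧ ∀ ε : ℝ, 0 < ε → ∀ᶠ x : ℕ in atTop, relEnt cp μ A (Ico 3 x) ≤ (δ + ε) * gk k x

/-- **Job ASY.** Sums of powers of `1 / log`.
Proof. Upper bound: split at `⌊√x⌋`; `n ≥ x ^ (1 - η)` give at most `x / ((1 - η) log x) ^ k`, the smaller ones at most `x ^ (1 - η) / log ^ k 3`. Lower bound: all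
terms are at least `log ^ (-k) x`. With shifts: `cp` is decreasing and `cp (n + R) / cp n → 1`. -/
def J_ASY : Prop := (∀ k : ℕ, Tendsto (fun x : ℕ => (∑ n ∈ Ico 3 x, cp n ^ k) / gk k x) atTop (𝓝 1)) ∧
  ∀ H : Finset ℕ, Tendsto (fun x : ℕ => (∑ n ∈ Ico 3 x, ∏ h ∈ H, cp (n + h)) / gk H.card x) atTop (𝓝 1)

/-- **Job EXU** (uses ASY). Exponential moments of the numbers of tuples.
Proof. `R` = the largest element of the `H i`, `x` large, `y = ⌊√x⌋`. The `n < y` contribute at most `∑ |θ i| y` to the exponent, `o(gk k x)`. For `n ≥ y` all `cp ≤ P = 2 / log x`.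
Let `b ≥ 4 (R + 1)` be large; cells of length `b` in `[y, x)` (the last may be shorter). `N_i = I_i + C_i`, `I_i` the `n` with `n + H_i` in one cell, `C_i` the others (they
lie in one of the cells shifted by `⌊b / 2⌋`, with `n` in one of `R` consecutive places of it). Cells are independent. For one cell and any real `t_i`, with
`T` the part of the random set in the cell: `exp (∑ t_i I_i) - 1 = 0` unless `T` contains some `n + H_i`; `T = n + H_i` determines `i` and `n` (smallest element,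
injectivity), value `e ^ (t_i) - 1`, probability `∏ cp (n + h) * ∏ (1 - cp)`; the other `T` have at least `k + 1` elements, probability at most `b ^ (k + 1) P ^ (k + 1)`, value
at most `exp (b ∑ |t_i|)`. So `E exp (∑ t_i I_i) ≤ 1 + ∑ (e ^ (t_i) - 1) ∑_n ∏ cp (n + h) + K P ^ (k + 1) ≤ exp (…)`, `K = K(b, t)`. Product over the cells, for `t = (1 + η) θ`:
exponent at most `∑ (e ^ (t_i) - 1) S_i + (x / b + 2) K P ^ (k + 1)`, where `S_i`, the sum over the `n` with `n + H_i` in one cell, is between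
`(1 - 2 R / b - o(1)) gk k x` and `(1 + o(1)) gk k x` (ASY; `cp` varies slowly in a cell). The `C_i`, for `t_i = (1 + 1 / η) max (θ_i, 0)`, in the shifted cells, in the same way: exponent at
most `∑ (e ^ (t_i) - 1) (2 R / b) (1 + o(1)) gk k x + …` (`C_i` may be dropped if `θ_i ≤ 0`). Hölder: `E exp (∑ θ_i N_i) ≤ (E exp ((1 + η) ∑ θ_i I_i)) ^ (1 / (1 + η)) *
(E exp ((1 + 1 / η) ∑ θ_i⁺ C_i)) ^ (η / (1 + η))`. First `η → 0` (`(e ^ ((1 + η) θ) - 1) / (1 + η) → e ^ θ - 1`), then `b → ∞`, then `x → ∞`. (Everything can be written with the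
finite sums over `T ⊆ Ico 3 x`, `bern` factorises over disjoint sets.) -/
def J_EXU : Prop := ∀ (r k : ℕ) (H : Fin r → Finset ℕ), 1 ≤ k → Shapes r k H → ∀ (θ : Fin r → ℝ) (ε : ℝ), 0 < ε → ∀ᶠ x : ℕ in atTop,
  ∑ T ∈ (Ico 3 x).powerset, bern cp (Ico 3 x) T * Real.exp (∑ i, θ i * ntup (H i) T x) ≤ Real.exp ((∑ i, (Real.exp (θ i) - 1) + ε) * gk k x)

/-- **Job UPW** (uses J_DV of ME, EXU). The laws of the limit: upper bound for the rate (pattern: `Q222.ME.UPL`).
Proof. Countably many vectors `θ ^ j` (rational, `θ ^ 0 = 0`), `φ s a = max_{j ≤ s} (∑ i, (θ ^ j_i a_i - (exp (θ ^ j_i) - 1)))`, nonnegative, continuous, nondecreasing in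
`s`. DV with `F = Ico 3 x`, `G T = gk k x * φ s (ntup (H_i) T x / gk k x)_i`; by EXU `∑ bern exp G ≤ (s + 1) exp (ε gk k x)`. So `E φ s (ntup / gk) ≤ δ + 3 ε` for large `x`. For `T = A ∩ [3, x)`:
`|tup (H_i) A x - ntup (H_i) T x| ≤ R + 3`. Fatou: `E φ s (L) ≤ δ`; monotone convergence, and `sup_s φ s (a) ≥ ∑ hfun (a_i)` for `a ≥ 0` (coordinates separately, density of the
rational vectors; for `a_i = 0` let `θ_i → -∞`). -/
def J_UPW : Prop := ∀ (r k : ℕ) (H : Fin r → Finset ℕ) (δ : ℝ), 1 ≤ k → Shapes r k H → 0 ≤ δ →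
  ∀ (Ω : Type) [MeasurableSpace Ω] (μ : Measure Ω) [IsProbabilityMeasure μ] (A : Ω → Set ℕ), LCls k δ μ A →
    ∀ L : Ω → Fin r → ℝ, Measurable L → (∀ᵐ ω ∂μ, ∀ i, Tendsto (fun x : ℕ => (tup (H i) (A ω) x : ℝ) / gk k x) atTop (𝓝 (L ω i))) →
      ∫⁻ ω, ENNReal.ofReal (∑ i, hfun (L ω i)) ∂μ ≤ ENNReal.ofReal δ

/-- **Job FIW** (uses J_EVT of ME, EXU). The probability of finiteness (pattern: `Q24.ME.FIN`).
Proof. `E_N` = no `n ≥ N` with `n + H ⊆ A`. On `E_N` `ntup H (A ∩ [3, x)) x ≤ N`, an event of probability at most `exp (|θ| N + (e ^ θ - 1 + ε) gk k x)` in the model, for every `θ < 0`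
(EXU with `r = 1`). EVT: `μ(E_N) ((1 - e ^ θ - ε) gk k x - |θ| N) ≤ (δ + ε) gk k x + log 2`. Let `x → ∞`, `ε → 0`, `θ → -∞`, `N → ∞`. -/
def J_FIW : Prop := ∀ (H : Finset ℕ) (δ : ℝ), 0 ∈ H → 0 ≤ δ →
  ∀ (Ω : Type) [MeasurableSpace Ω] (μ : Measure Ω) [IsProbabilityMeasure μ] (A : Ω → Set ℕ), LCls H.card δ μ A →
    μ.real {ω | ∃ N : ℕ, ∀ n, N ≤ n → ¬ ∀ h ∈ H, n + h ∈ A ω} ≤ δ

/-- **Job MON.** Monotonicity of the relative entropy.
Proof. For `T ⊆ F` `lawOn μ A F T` and `bern p F T` are the sums over the `T' ⊆ F'` with `T' ∩ F = T` of `lawOn μ A F' T'`, `bern p F' T'`; the log sum inequality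
`∑ a_i log (a_i / b_i) ≥ (∑ a_i) log (∑ a_i / ∑ b_i)` for `a_i ≥ 0`, `b_i > 0`. -/
def J_MON : Prop := ∀ (p : ℕ → ℝ) (F F' : Finset ℕ), F ⊆ F' → (∀ n ∈ F', 0 < p n ∧ p n < 1) → ∀ (Ω : Type) [MeasurableSpace Ω]
  (μ : Measure Ω) [IsProbabilityMeasure μ] (A : Ω → Set ℕ), IsRandomSet A → relEnt p μ A F ≤ relEnt p μ A F'

/-- **Job MIX.** The relative entropy of a mixture (pattern: `Q224.ME.ENM`).
Proof. `lawOn (ν.prod μ') (fun z => A z.1 z.2) F T = ∫ lawOn μ' (A x) F T ∂ν` (Fubini). Jensen's inequality for `t ↦ t log (t / bern p F T)` for each `T`; everything is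
bounded and measurable. -/
def J_MIX : Prop := ∀ (X : Type) [MeasurableSpace X] (ν : Measure X) [IsProbabilityMeasure ν] (Ω' : Type) [MeasurableSpace Ω'] (μ' : Measure Ω')
  [IsProbabilityMeasure μ'] (A : X → Ω' → Set ℕ), (∀ n, MeasurableSet {z : X × Ω' | n ∈ A z.1 z.2}) →
  ∀ (p : ℕ → ℝ) (F : Finset ℕ), (∀ n ∈ F, 0 < p n ∧ p n < 1) →
    Integrable (fun x => relEnt p μ' (A x) F) ν ∧ relEnt p (ν.prod μ') (fun z => A z.1 z.2) F ≤ ∫ x, relEnt p μ' (A x) F ∂ν

/-- The cells. -/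
def cell (e : ℕ → ℕ) (c : ℕ) : Finset ℕ := Ico (e c) (e (c + 1))

/-- The parts of `A` in the cells are independent with the laws `K c`. -/
structure CellModel (e : ℕ → ℕ) (K : ℕ → Finset ℕ → ℝ) {Ω : Type} [MeasurableSpace Ω] (μ : Measure Ω) (A : Ω → Set ℕ) : Prop where
  rand : IsRandomSet A
  law : ∀ (N : ℕ) (T : Finset ℕ), T ⊆ Ico 3 (e N) → lawOn μ A (Ico 3 (e N)) T = ∏ c ∈ range N, K c (T ∩ cell e c)

/-- **Job CNS.** The construction (pattern: `Q285.ME.Constr`).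
Proof. `Ω' = ℕ → ℝ` with independent uniform coordinates on `[0, 1]`. Enumerate the subsets `T_1, …, T_m` of `cell e c`; the part of `A x u` in `cell e c` is the first `T_j` with
`u c ≤ K x c T_1 + … + K x c T_j` (and `T_m` if there is none); no elements below `3`. The set `{(x, u) | n ∈ A x u}` is a finite Boolean combination of the measurable sets
`{u c ≤ ∑_{i ≤ j} K x c T_i}`. For fixed `x` the coordinates are independent and `T_j` has probability `K x c T_j`; `Ico 3 (e N)` is the disjoint union of the cells `c < N`. -/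
def J_CNS : Prop := ∀ (e : ℕ → ℕ), StrictMono e → e 0 = 3 → ∀ (X : Type) [MeasurableSpace X] (K : X → ℕ → Finset ℕ → ℝ),
  (∀ c T, Measurable (fun x => K x c T)) → (∀ x c, (∀ T ∈ (cell e c).powerset, 0 ≤ K x c T) ∧ ∑ T ∈ (cell e c).powerset, K x c T = 1) →
  ∃ (Ω' : Type) (_ : MeasurableSpace Ω') (μ' : Measure Ω') (_ : IsProbabilityMeasure μ') (A : X → Ω' → Set ℕ),
    (∀ n, MeasurableSet {z : X × Ω' | n ∈ A z.1 z.2}) ∧ (∀ x ω, ∀ n ∈ A x ω, 3 ≤ n) ∧
    (∀ x c, ∀ᵐ ω ∂μ', K x c (tr (A x) (cell e c) ω) ≠ 0) ∧ ∀ x, CellModel e (K x) μ' (A x)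

/-- **Job CEN.** The relative entropy of independent cells.
Proof. Induction on `N` (or one computation): `lawOn = ∏ K c (T ∩ cell c)`, `bern p (Ico 3 (e N)) T = ∏ bern p (cell c) (T ∩ cell c)`, the logarithm of the quotient is the
sum, and the other factors sum to `1`; terms with a factor `0` vanish on both sides. -/
def J_CEN : Prop := ∀ (e : ℕ → ℕ), StrictMono e → e 0 = 3 → ∀ (K : ℕ → Finset ℕ → ℝ),
  (∀ c, (∀ T ∈ (cell e c).powerset, 0 ≤ K c T) ∧ ∑ T ∈ (cell e c).powerset, K c T = 1) →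
  ∀ (Ω : Type) [MeasurableSpace Ω] (μ : Measure Ω) [IsProbabilityMeasure μ] (A : Ω → Set ℕ), CellModel e K μ A →
  ∀ p : ℕ → ℝ, (∀ n, 3 ≤ n → 0 < p n ∧ p n < 1) → ∀ N : ℕ,
    relEnt p μ A (Ico 3 (e N)) = ∑ c ∈ range N, ∑ T ∈ (cell e c).powerset, K c T * Real.log (K c T / bern p (cell e c) T)

/-- The mean of a function of the parts in two neighbouring cells. -/
noncomputable def mean2 (e : ℕ → ℕ) (K : ℕ → Finset ℕ → ℝ) (f : Finset ℕ → ℝ) (c : ℕ) : ℝ :=
  ∑ T ∈ (cell e c ∪ cell e (c + 1)).powerset, K c (T ∩ cell e c) * K (c + 1) (T ∩ cell e (c + 1)) * f T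

/-- **Job SLC.** The strong law for functions of neighbouring cells (pattern: `Q96.ME.SLL`).
Proof. `Z c ω = f c (A ω ∩ (cell c ∪ cell (c + 1)))` has mean `mean2 e K (f c) c`, `0 ≤ Z c ≤ B c`, and `Z c`, `Z c'` are independent for `|c - c'| ≥ 2` (`law`). So
`Var (∑_{c < N} Z c) ≤ 3 ∑_{c < N} E (Z c) ^ 2 ≤ 3 (max_{c < N} B c) ∑_{c < N} mean2`; with `B` nondecreasing and `B N ≤ G N ^ (1 / 4)` this is at most `C G N ^ (5 / 4)` for large `N`. Choose `N_j` = the
least `N` with `G N ≥ (1 + η) ^ j`; Chebyshev's inequality and the first Borel-Cantelli lemma: `∑_{c < N_j} (Z c - mean2) / G (N_j) → 0` almost surely. `G (N_j) / (1 + η) ^ j → 1` by the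
condition on the increments; monotonicity of the sums in `N`; `η → 0`. -/
def J_SLC : Prop := ∀ (e : ℕ → ℕ), StrictMono e → e 0 = 3 → ∀ (K : ℕ → Finset ℕ → ℝ),
  (∀ c, (∀ T ∈ (cell e c).powerset, 0 ≤ K c T) ∧ ∑ T ∈ (cell e c).powerset, K c T = 1) →
  ∀ (Ω : Type) [MeasurableSpace Ω] (μ : Measure Ω) [IsProbabilityMeasure μ] (A : Ω → Set ℕ), CellModel e K μ A →
  ∀ (f : ℕ → Finset ℕ → ℝ) (B G : ℕ → ℝ) (u : ℝ), (∀ c T, 0 ≤ f c T ∧ f c T ≤ B c) → Monotone B → Monotone G → Tendsto G atTop atTop →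
    (∀ᶠ c : ℕ in atTop, G (c + 1) ≤ G c + G c ^ ((1 : ℝ) / 2)) → (∀ᶠ c : ℕ in atTop, B c ≤ G c ^ ((1 : ℝ) / 4)) →
    Tendsto (fun N : ℕ => (∑ c ∈ range N, mean2 e K (f c) c) / G N) atTop (𝓝 u) →
    ∀ᵐ ω ∂μ, Tendsto (fun N : ℕ => (∑ c ∈ range N, f c (tr A (cell e c ∪ cell e (c + 1)) ω)) / G N) atTop (𝓝 u)

open Classical in
/-- The sets `n + H`. -/
noncomputable def sh (H : Finset ℕ) (n : ℕ) : Finset ℕ := H.image (fun h => n + h)

open Classical in
/-- The law of a cell `C`: the probability of each set `n + H_i ⊆ C` (exactly) is multiplied by `q i`, the rest goes to `∅`. -/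
noncomputable def cl {r : ℕ} (H : Fin r → Finset ℕ) (q : Fin r → ℝ) (C T : Finset ℕ) : ℝ :=
  bern cp C T + ∑ i, ∑ n ∈ C, (if sh (H i) n ⊆ C then (q i - 1) * bern cp C (sh (H i) n) * ((if T = sh (H i) n then 1 else 0) - (if T = ∅ then 1 else 0)) else 0)

/-- **Job CEL.** The law of a cell.
Proof. `C = Ico u (u + b)`, `P = cp u ≥ cp n` for `n ∈ C`. The sets `n + H_i` are nonempty and distinct for distinct `(i, n)` (smallest element `n`; injectivity of `H`),
`s_i = ∑_{n, n + H_i ⊆ C} bern C (n + H_i) ≤ b P ^ k`; `bern C ∅ ≥ 1 - b P ≥ 1 / 2`. Sum `1`: clear. Nonnegative: for `T = n + H_i` it is `q i * bern`, for `∅` it is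
`bern C ∅ (1 + η)`, `η = ∑ (1 - q_i) s_i / bern C ∅`, `|η| ≤ 2 r (B + 1) b P ^ k ≤ 1 / 2`. Relative entropy: `∑ s_i q_i log q_i + bern C ∅ (1 + η) log (1 + η)`, and
`(1 + η) log (1 + η) ≤ η + η ^ 2`, so it is at most `∑ s_i hfun (q_i) + η ^ 2` (`q = 0`: `0 log 0 = 0`). -/
def J_CEL : Prop := ∀ (r k : ℕ) (H : Fin r → Finset ℕ), 1 ≤ k → Shapes r k H → ∀ (u b : ℕ) (B : ℝ) (q : Fin r → ℝ), 3 ≤ u → 0 ≤ B →
  (∀ i, 0 ≤ q i ∧ q i ≤ B) → r * (B + 1) * b * cp u ^ k ≤ 1 / 4 → b * cp u ≤ 1 / 2 →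
  ((∀ T ∈ (Ico u (u + b)).powerset, 0 ≤ cl H q (Ico u (u + b)) T) ∧ ∑ T ∈ (Ico u (u + b)).powerset, cl H q (Ico u (u + b)) T = 1) ∧
  ∑ T ∈ (Ico u (u + b)).powerset, cl H q (Ico u (u + b)) T * Real.log (cl H q (Ico u (u + b)) T / bern cp (Ico u (u + b)) T) ≤
    b * cp u ^ k * ∑ i, hfun (q i) + 4 * (r * (B + 1) * b * cp u ^ k) ^ 2

/-- **Job MEA.** The mean number of tuples starting in a cell.
Proof. `C = Ico u (u + b)`, `C' = Ico (u + b) (u + b + b')`, `P = cp u`, `P' = cp (u + b + b')` (bounds for `cp` on `C ∪ C'`), `R` a bound for the elements of the `H i`, `R ≤ b'`. For `n` with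
`n + H_i ⊆ C` the probability of `n + H_i ⊆ T` under `cl` is `∏ cp (n + h) (1 + (q_i - 1) ρ)`, `ρ = ∏_{C \ (n + H_i)} (1 - cp) ∈ [1 - b P, 1]` (only the exact set `n + H_i` among the modified
sets contains `n + H_i`, all have `k` elements): it differs from `q_i ∏ cp (n + h)` by at most `(B + 1) b P P ^ k`, and `P' ^ k ≤ ∏ cp ≤ P ^ k`. There are at most `b` and at least `b - R` such `n`. For the
other `n ∈ C` (at most `R`) `n + H_i` splits into `J ⊆ C`, `J' ⊆ C'`, with `j` and `k - j` elements, both nonempty (`0 ∈ H_i`); `J ⊆ T` has probability at most `P ^ j + r k B P ^ k ≤ 2 P ^ j`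
(there are at most `r k` pairs `(i', n')` with `J ⊆ n' + H_{i'}`, as one element of `J` is one of the `k` elements), the same for `J'`; total at most `4 P ^ k`. -/
def J_MEA : Prop := ∀ (r k R : ℕ) (H : Fin r → Finset ℕ), 1 ≤ k → Shapes r k H → (∀ i, ∀ h ∈ H i, h ≤ R) →
  ∀ (u b b' : ℕ) (B : ℝ) (q q' : Fin r → ℝ), 3 ≤ u → 0 ≤ B → R ≤ b → R ≤ b' → (∀ i, 0 ≤ q i ∧ q i ≤ B) → (∀ i, 0 ≤ q' i ∧ q' i ≤ B) →
  b * cp u ≤ 1 / 2 → b' * cp u ≤ 1 / 2 → r * k * (B + 1) * cp u ≤ 1 → ∀ i,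
    |∑ T ∈ (Ico u (u + b) ∪ Ico (u + b) (u + b + b')).powerset, cl H q (Ico u (u + b)) (T ∩ Ico u (u + b)) *
        cl H q' (Ico (u + b) (u + b + b')) (T ∩ Ico (u + b) (u + b + b')) *
        (((Ico u (u + b)).filter (fun n => ∀ h ∈ H i, n + h ∈ T)).card : ℝ) - q i * (b * cp u ^ k)| ≤
      B * b * (cp u ^ k - cp (u + b + b') ^ k) + (B + 1) * (b : ℝ) ^ 2 * cp u ^ (k + 1) + (B + 4) * R * cp u ^ k

/-- **Job LOX** (uses ASY, MON, MIX, CNS, CEN, SLC, CEL, MEA). The laws of the limit: construction.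
Proof. `b c = Nat.log 2 (Nat.log 2 (c + 4)) + 1`, `e 0 = 3`, `e (c + 1) = e c + b c`, `B c = b c`; `X = Fin r → ℝ`; for `x ∈ X` `q x c i = x i` if `0 ≤ x i ≤ B c`, else `1`. For `c < c₀`
(where the conditions of CEL or MEA fail) `K x c = bern cp (cell c)`, otherwise `K x c = cl H (q x c) (cell e c)`, `P c = cp (e c)`. By CEL and CEN
`relEnt cp μ' (A x) (Ico 3 (e N)) ≤ ∑_{c < N} (b c P c ^ k ∑ hfun (x_i) + ε c b c P c ^ k)`, with `ε c → 0` independent of `x` (`hfun (q) ≤ hfun (x_i)`; `hfun 1 = 0`), and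
`∑_{c < N} b c P c ^ k ~ gk k (e N)` (ASY; `cp` varies slowly in a cell). MON for `Ico 3 y`, `e N ≤ y ≤ e (N + 1)` (`gk k (e (N + 1)) ~ gk k (e N)`). MIX: for `Ω = X × Ω'`, `μ = ν.prod μ'`
`relEnt ≤ (∫ ∑ hfun dν + o(1)) gk k y ≤ (δ + o(1)) gk k y`. SLC for fixed `x ≥ 0` with `f c T = #{n ∈ cell c : n + H_i ⊆ T}`, `G N = gk k (e N)` (eventually nondecreasing; change finitely many values, e.g.
`G N = ∑_{c < N} b c P c ^ k`), `u = x i`, by MEA (`b c → ∞`, `b c P c → 0`, `R / b c → 0`); and `tup (H_i) A (e N)` is the sum up to the `n < 3` and finitely many; for `y` between, monotonicity. Fubini: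
almost surely for `ν.prod μ'`. `L z = z.1`. -/
def J_LOX : Prop := ∀ (r k : ℕ) (H : Fin r → Finset ℕ) (δ : ℝ), 1 ≤ k → Shapes r k H → 0 ≤ δ → ∀ (ν : Measure (Fin r → ℝ)) [IsProbabilityMeasure ν],
  ν {v | ∃ i, v i < 0} = 0 → ∫⁻ v, ENNReal.ofReal (∑ i, hfun (v i)) ∂ν ≤ ENNReal.ofReal δ →
  ∃ (Ω : Type) (_ : MeasurableSpace Ω) (μ : Measure Ω) (_ : IsProbabilityMeasure μ) (A : Ω → Set ℕ) (L : Ω → Fin r → ℝ), LCls k δ μ A ∧
    Measurable L ∧ μ.map L = ν ∧ ∀ᵐ ω ∂μ, ∀ i, Tendsto (fun x : ℕ => (tup (H i) (A ω) x : ℝ) / gk k x) atTop (𝓝 (L ω i))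

/-- **Job FIC** (uses ASY, MON, MIX, CNS, CEN). A random set with few tuples with the largest probability.
Proof. `t = min 1 δ`, `R` = the largest element of `H`, `e c = (c + 2) ^ 2 - 1`, `X = Bool` with `ν {true} = t`. `K false c = bern cp (cell c)`; `K true c` = `bern cp (cell c)` conditioned on the
decreasing event `V` = (no `n` with `n + H ⊆ T`, and no element in the last `R` places of the cell; for the finitely many cells with at most `R` elements `T = ∅`). `harris` (or the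
product formula and induction): `bern (V) ≥ ∏_{n ∈ cell} (1 - ∏ cp (n + h)) * ∏_{last R} (1 - cp n)`, so `-log bern (V) ≤ (1 + o(1)) ∑_{n ∈ cell} ∏ cp (n + h) + 2 R cp (e c)` for large `c`, and the last
terms are negligible (cells of length `2 c + 5`). CEN, ASY: `relEnt cp μ' (A true) (Ico 3 (e N)) = ∑_{c < N} (-log bern (V_c)) ≤ (1 + o(1)) gk k (e N)`; MIX, MON: `relEnt ≤ (t + o(1)) gk k y ≤ (δ + o(1)) gk k y`.
If the switch is `true`, no `n ≥ N₀` has `n + H ⊆ A`: `n ∈ A` is not in the last `R` places of its cell, so `n + H` would be in one cell. So the probability is at least `t`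
(for the upper bound use FIW: it is a hypothesis here as the wanted equality needs it). -/
def J_FIC : Prop := ∀ (H : Finset ℕ) (δ : ℝ), 0 ∈ H → 0 ≤ δ →
  ∃ (Ω : Type) (_ : MeasurableSpace Ω) (μ : Measure Ω) (_ : IsProbabilityMeasure μ) (A : Ω → Set ℕ), LCls H.card δ μ A ∧
    min 1 δ ≤ μ.real {ω | ∃ N : ℕ, ∀ n, N ≤ n → ¬ ∀ h ∈ H, n + h ∈ A ω}

end Pool.Agent.Q120.LW
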